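import Mathlib

/-!
Isometric self-maps of finite-dimensional Euclidean spaces are onto.
-/

namespace Pool.Agent.W620.FN

variable {V : Type*} [NormedAddCommGroup V] [InnerProductSpace ℝ V] [FiniteDimensional ℝ V]

theorem isom_surj {e : V → V} (he : Isometry e) : Function.Surjective e := by
  set A := he.affineIsometryOfStrictConvexSpace with hA
  have h1 : ∀ z, e z = A.linearIsometry z + e 0 := by
    intro z
    have := A.map_vadd 0 z
    simpa [hA] using this
  have h2 : Function.Surjective A.linearIsometry.toLinearMap :=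
    LinearMap.injective_iff_surjective.1 A.linearIsometry.injective
  intro w
  obtain ⟨z, hz⟩ := h2 (w - e 0)
  refine ⟨z, ?_⟩
  rw [h1]
  have : A.linearIsometry z = w - e 0 := hz
  rw [this]; abel

theorem toEquiv {e : V → V} (he : Isometry e) : ∃ e' : V ≃ᵢ V, ∀ z, e' z = e z :=
  ⟨IsometryEquiv.mk (Equiv.ofBijective e ⟨he.injective, isom_surj he⟩) he, fun _ => rfl⟩

end Pool.Agent.W620.FN
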